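import Pool.Agent.H816R2.KM2N

/-!
A Steiner system `S(2,6,231)`: 3 copies of the abelian group Z_7 x Z_11 and 0 fixed points.
-/

set_option autoImplicit false

namespace Pool.Agent.V7H92.K6

open Pool.Agent.H816R2.KM2

def full231 : List (List ℕ) :=
  [[0, 1, 97, 98, 124, 206],
   [0, 2, 61, 94, 167, 227],
   [0, 3, 42, 126, 191, 203],
   [0, 7, 54, 116, 145, 192],
   [0, 8, 36, 137, 143, 148],
   [0, 9, 65, 88, 151, 188],
   [0, 10, 16, 180, 184, 212],
   [0, 11, 31, 114, 218, 221],
   [0, 12, 34, 45, 60, 223],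
   [0, 14, 113, 166, 174, 230],
   [0, 17, 87, 121, 122, 171],
   [0, 20, 85, 89, 144, 175],
   [0, 26, 78, 102, 157, 177],
   [0, 32, 80, 172, 201, 208],
   [0, 41, 82, 115, 155, 193],
   [0, 77, 141, 182, 187, 224],
   [0, 93, 103, 119, 134, 150],
   [0, 95, 120, 127, 156, 186],
   [0, 106, 108, 202, 204, 228],
   [0, 118, 128, 139, 199, 213],
   [0, 133, 152, 197, 219, 220],
   [77, 86, 114, 211, 223, 226],
   [77, 172, 178, 196, 212, 230]]

def short231 : List (List ℕ × List ℕ) :=
  []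

theorem ex231 : ∃ 𝓑 : Set (Finset (Fin 231)), IsS2 (Fin 231) 6 𝓑 :=
  of_coded (codedP 7 (codedZ 11)) 6 3 0 231 rfl full231 short231
    (by decide +kernel) (by decide +kernel) (by decide +kernel) (by decide +kernel)
    (by decide +kernel) (by decide +kernel)

end Pool.Agent.V7H92.K6
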