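import Pool.Agent.H816R2.KM2N

/-!
A Steiner system `S(2,6,256)`: 2 copies of the abelian group Z_5 x Z_5 x Z_5 and 6 fixed points.
-/

set_option autoImplicit false

namespace Pool.Agent.V7H92.K6

open Pool.Agent.H816R2.KM2

def full256 : List (List ℕ) :=
  [[0, 1, 45, 102, 195, 242],
   [0, 2, 58, 129, 176, 206],
   [0, 5, 35, 104, 163, 204],
   [0, 6, 40, 103, 137, 149],
   [0, 10, 91, 145, 181, 205],
   [0, 12, 168, 190, 203, 243],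
   [0, 25, 87, 180, 212, 226],
   [0, 32, 90, 109, 192, 198],
   [0, 34, 66, 112, 177, 244],
   [0, 36, 76, 162, 197, 228],
   [0, 38, 146, 147, 167, 172],
   [0, 48, 78, 130, 188, 232],
   [0, 50, 133, 191, 207, 236],
   [0, 51, 170, 193, 200, 202],
   [0, 70, 138, 174, 230, 245]]

def short256 : List (List ℕ × List ℕ) :=
  [([0, 1, 2, 3, 4, 25, 26, 27, 28, 29, 50, 51, 52, 53, 54, 75, 76, 77, 78, 79, 100, 101, 102, 103, 104], [0, 7, 14, 16, 23, 253]),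
   ([0, 1, 2, 3, 4, 25, 26, 27, 28, 29, 50, 51, 52, 53, 54, 75, 76, 77, 78, 79, 100, 101, 102, 103, 104], [0, 8, 11, 19, 22, 252]),
   ([0, 1, 2, 3, 4, 25, 26, 27, 28, 29, 50, 51, 52, 53, 54, 75, 76, 77, 78, 79, 100, 101, 102, 103, 104], [0, 9, 13, 17, 21, 255]),
   ([0, 1, 2, 3, 4, 5, 6, 7, 8, 9, 10, 11, 12, 13, 14, 15, 16, 17, 18, 19, 20, 21, 22, 23, 24], [0, 41, 57, 98, 114, 251]),
   ([0, 1, 2, 3, 4, 5, 6, 7, 8, 9, 10, 11, 12, 13, 14, 15, 16, 17, 18, 19, 20, 21, 22, 23, 24], [0, 42, 59, 96, 113, 254]),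
   ([0, 1, 2, 3, 4, 5, 6, 7, 8, 9, 10, 11, 12, 13, 14, 15, 16, 17, 18, 19, 20, 21, 22, 23, 24], [0, 47, 69, 86, 108, 250]),
   ([0, 1, 2, 3, 4, 25, 26, 27, 28, 29, 50, 51, 52, 53, 54, 75, 76, 77, 78, 79, 100, 101, 102, 103, 104], [125, 132, 139, 141, 148, 253]),
   ([0, 1, 2, 3, 4, 25, 26, 27, 28, 29, 50, 51, 52, 53, 54, 75, 76, 77, 78, 79, 100, 101, 102, 103, 104], [125, 133, 136, 144, 147, 252]),
   ([0, 1, 2, 3, 4, 25, 26, 27, 28, 29, 50, 51, 52, 53, 54, 75, 76, 77, 78, 79, 100, 101, 102, 103, 104], [125, 134, 138, 142, 146, 254]),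
   ([0, 1, 2, 3, 4, 5, 6, 7, 8, 9, 10, 11, 12, 13, 14, 15, 16, 17, 18, 19, 20, 21, 22, 23, 24], [125, 156, 187, 218, 249, 251]),
   ([0, 1, 2, 3, 4, 5, 6, 7, 8, 9, 10, 11, 12, 13, 14, 15, 16, 17, 18, 19, 20, 21, 22, 23, 24], [125, 167, 184, 221, 238, 255]),
   ([0, 1, 2, 3, 4, 5, 6, 7, 8, 9, 10, 11, 12, 13, 14, 15, 16, 17, 18, 19, 20, 21, 22, 23, 24], [125, 174, 193, 212, 231, 250]),
   ([0], [250, 251, 252, 253, 254, 255])]

theorem ex256 : ∃ 𝓑 : Set (Finset (Fin 256)), IsS2 (Fin 256) 6 𝓑 :=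
  of_coded (codedP 5 (codedP 5 (codedZ 5))) 6 2 6 256 rfl full256 short256
    (by decide +kernel) (by decide +kernel) (by decide +kernel) (by decide +kernel)
    (by decide +kernel) (by decide +kernel)

end Pool.Agent.V7H92.K6
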