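import Pool.Agent.H816R2.KM2N

/-!
A Steiner system `S(2,6,261)`: 9 copies of the abelian group Z_29 and 0 fixed points.
-/

set_option autoImplicit false

namespace Pool.Agent.V7H92.K6

open Pool.Agent.H816R2.KM2

def full261 : List (List ℕ) :=
  [[0, 1, 121, 141, 188, 190],
   [0, 2, 154, 167, 244, 251],
   [0, 3, 42, 48, 74, 103],
   [0, 4, 60, 94, 113, 147],
   [0, 5, 69, 81, 162, 220],
   [0, 6, 130, 137, 216, 225],
   [0, 7, 73, 79, 182, 202],
   [0, 8, 33, 214, 229, 236],
   [0, 9, 62, 63, 250, 252],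
   [0, 10, 92, 150, 193, 194],
   [0, 11, 32, 37, 178, 181],
   [0, 12, 93, 134, 139, 238],
   [0, 13, 88, 99, 224, 253],
   [0, 14, 36, 65, 163, 170],
   [0, 29, 129, 132, 148, 171],
   [0, 30, 57, 101, 102, 232],
   [0, 31, 56, 116, 209, 226],
   [0, 34, 53, 87, 118, 143],
   [0, 35, 77, 168, 192, 208],
   [0, 38, 95, 146, 207, 235],
   [0, 40, 117, 160, 191, 260],
   [0, 41, 78, 119, 179, 254],
   [0, 43, 86, 97, 230, 248],
   [0, 44, 59, 106, 205, 245],
   [0, 46, 67, 142, 198, 239],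
   [0, 47, 144, 159, 186, 233],
   [0, 49, 108, 173, 228, 258],
   [0, 52, 68, 151, 185, 227],
   [0, 58, 89, 114, 180, 197],
   [0, 61, 107, 128, 213, 259],
   [0, 70, 125, 166, 176, 217],
   [0, 75, 136, 153, 201, 218],
   [0, 84, 96, 133, 222, 234],
   [0, 91, 126, 161, 231, 247],
   [0, 98, 105, 123, 138, 145],
   [0, 112, 135, 158, 204, 246],
   [0, 155, 164, 177, 200, 203],
   [0, 174, 212, 223, 237, 256],
   [29, 30, 131, 159, 161, 189],
   [29, 32, 96, 110, 215, 223],
   [29, 36, 69, 83, 105, 134],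
   [29, 37, 97, 114, 190, 195],
   [29, 38, 77, 193, 248, 254],
   [29, 40, 128, 144, 194, 252],
   [29, 41, 147, 155, 221, 226],
   [29, 42, 78, 80, 206, 213],
   [29, 43, 165, 168, 235, 243],
   [29, 59, 108, 167, 200, 230],
   [29, 60, 85, 116, 150, 169],
   [29, 63, 82, 145, 246, 247],
   [29, 64, 99, 141, 185, 256],
   [29, 70, 75, 122, 139, 174],
   [29, 81, 104, 120, 192, 237],
   [29, 86, 95, 152, 177, 205],
   [29, 87, 121, 140, 217, 218],
   [29, 94, 124, 173, 179, 236],
   [29, 109, 137, 146, 198, 257],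
   [29, 176, 201, 203, 240, 253],
   [58, 61, 100, 106, 132, 161],
   [58, 65, 131, 137, 240, 260],
   [58, 66, 91, 185, 200, 207],
   [58, 67, 120, 121, 221, 223],
   [58, 69, 90, 95, 236, 239],
   [58, 71, 146, 157, 195, 224],
   [58, 88, 115, 159, 160, 203],
   [58, 101, 144, 155, 201, 219],
   [58, 102, 117, 164, 176, 216],
   [58, 116, 147, 172, 238, 255],
   [58, 183, 194, 208, 227, 232],
   [87, 90, 154, 168, 186, 194],
   [87, 95, 155, 172, 248, 253],
   [87, 96, 135, 219, 225, 251],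
   [87, 100, 136, 138, 177, 184],
   [87, 174, 211, 224, 234, 259],
   [116, 124, 149, 178, 243, 258],
   [116, 127, 148, 153, 207, 210],
   [116, 179, 198, 203, 241, 252],
   [145, 182, 195, 205, 230, 232]]

def short261 : List (List ℕ × List ℕ) :=
  []

theorem ex261 : ∃ 𝓑 : Set (Finset (Fin 261)), IsS2 (Fin 261) 6 𝓑 :=
  of_coded (codedZ 29) 6 9 0 261 rfl full261 short261
    (by decide +kernel) (by decide +kernel) (by decide +kernel) (by decide +kernel)
    (by decide +kernel) (by decide +kernel)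

end Pool.Agent.V7H92.K6
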